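import Pool.Agent.TOR.Defs

/-!
# Lemma TOR: torsion from volumes and one trivialisation along a curve (abstract form)
-/

set_option autoImplicit false

namespace Pool.Agent.TOR

namespace Ord

variable {F : Type} [Field F] (v : Ord F)

theorem Ge.add {v : Ord F} {d : ℤ} {x y : F} (hx : v.Ge d x) (hy : v.Ge d y) : v.Ge d (x + y) := by
  by_cases h0 : x = 0
  · rw [h0, zero_add]; exact hy
  by_cases h1 : y = 0
  · rw [h1, add_zero]; exact hx
  by_cases h2 : x + y = 0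
  · exact Or.inl h2
  · exact Or.inr (le_trans (le_min (hx.resolve_left h0) (hy.resolve_left h1)) (v.add x y h0 h1 h2))

theorem Ge.mul {v : Ord F} {d e : ℤ} {x y : F} (hx : v.Ge d x) (hy : v.Ge e y) :
    v.Ge (d + e) (x * y) := by
  by_cases h0 : x = 0
  · left; rw [h0, zero_mul]
  by_cases h1 : y = 0
  · left; rw [h1, mul_zero]
  right
  rw [v.mul x y h0 h1]
  exact add_le_add (hx.resolve_left h0) (hy.resolve_left h1)

theorem Ge.mono {v : Ord F} {d e : ℤ} {x : F} (hx : v.Ge d x) (h : e ≤ d) : v.Ge e x := by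
  rcases hx with hx | hx
  · exact Or.inl hx
  · exact Or.inr (le_trans h hx)

theorem o_one : v.o 1 = 0 := by
  have := v.mul 1 1 one_ne_zero one_ne_zero
  rw [mul_one] at this
  linarith

theorem Ge.pow {v : Ord F} {d : ℤ} {x : F} (hx : v.Ge d x) (n : ℕ) : v.Ge (n * d) (x ^ n) := by
  induction n with
  | zero => right; simp [o_one]
  | succ n ih =>
    rw [pow_succ]
    have := ih.mul hx
    refine this.mono (le_of_eq ?_)
    push_cast
    ring

theorem o_pow {x : F} (hx : x ≠ 0) (n : ℕ) : v.o (x ^ n) = n * v.o x := by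
  induction n with
  | zero => simp [o_one]
  | succ n ih =>
    rw [pow_succ, v.mul _ _ (pow_ne_zero n hx) hx, ih]
    push_cast
    ring

theorem o_inv {x : F} (hx : x ≠ 0) : v.o x⁻¹ = - v.o x := by
  have := v.mul x x⁻¹ hx (inv_ne_zero hx)
  rw [mul_inv_cancel₀ hx, o_one] at this
  linarith

theorem o_neg_one : v.o (-1) = 0 := by
  have h := v.mul (-1) (-1) (neg_ne_zero.mpr one_ne_zero) (neg_ne_zero.mpr one_ne_zero)
  rw [neg_mul_neg, one_mul, o_one] at h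
  linarith

theorem Ge.neg {v : Ord F} {d : ℤ} {x : F} (hx : v.Ge d x) : v.Ge d (-x) := by
  by_cases h0 : x = 0
  · left; rw [h0, neg_zero]
  right
  rw [← neg_one_mul, v.mul _ _ (neg_ne_zero.mpr one_ne_zero) h0, o_neg_one, zero_add]
  exact hx.resolve_left h0

theorem Ge.sub {v : Ord F} {d : ℤ} {x y : F} (hx : v.Ge d x) (hy : v.Ge d y) :
    v.Ge d (x - y) := by
  rw [sub_eq_add_neg]
  exact hx.add hy.neg

theorem Ge.zero (d : ℤ) : v.Ge d 0 := Or.inl rfl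

end Ord

variable {k F : Type} [Field k] [Field F] [Algebra k F] {I : Type}

/-- A surface with two charts `H = 0` and `G = 0` around a curve `C`, `C i = v i x + H i`,
`G i = v i y + H i`, together with an effective divisor `D`; the sections of
`n (b₁ H - D) + a H` are the functions with `v i f ≥ n D i - (n b₁ + a) H i`. -/
structure Data (k F : Type) [Field k] [Field F] [Algebra k F] (I : Type) where
  /-- the orders -/
  v : I → Ord F
  const : ∀ i (c : k), (v i).Ge 0 (algebraMap k F c)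
  /-- the divisor of the section `1` -/
  H : I → ℤ
  /-- the divisor of interest -/
  D : I → ℤ
  /-- its degree -/
  b₁ : ℤ
  /-- the equation of the curve -/
  x : F
  /-- the third section -/
  y : F
  x_ne : x ≠ 0
  H_nonneg : ∀ i, 0 ≤ H i
  x_ge : ∀ i, 0 ≤ (v i).o x + H i
  nocom : ∀ i, H i = 0 ∨ (v i).o y + H i = 0

namespace Data

variable (S : Data k F I)

/-- the curve -/
def C (i : I) : ℤ := (S.v i).o S.x + S.H i

/-- the third divisor -/
def G (i : I) : ℤ := (S.v i).o S.y + S.H i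

/-- sections of `n (b₁ H - D) + a H` -/
def L (a n : ℤ) : Submodule k F :=
  sec k S.v (fun i => n * S.D i - (n * S.b₁ + a) * S.H i) S.const

theorem mem_L {a n : ℤ} {f : F} :
    f ∈ S.L a n ↔ ∀ i, (S.v i).Ge (n * S.D i - (n * S.b₁ + a) * S.H i) f := Iff.rfl

/-- sections of `a H` with order at least `t` along `i` -/
def U (i : I) (a t : ℤ) : Submodule k F :=
  S.L a 0 ⊓ sec k (fun _ : Unit => S.v i) (fun _ => t - a * S.H i) (fun _ c => S.const i c)

theorem mem_U {i : I} {a t : ℤ} {f : F} :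
    f ∈ S.U i a t ↔ f ∈ S.L a 0 ∧ (S.v i).Ge (t - a * S.H i) f := by
  constructor
  · rintro ⟨h1, h2⟩
    exact ⟨h1, h2 ()⟩
  · rintro ⟨h1, h2⟩
    exact ⟨h1, fun _ => h2⟩

/-- `w` is the partner of the section `s` modulo `x ^ q`. -/
def Partner (d₁ d₃ : F) (q a : ℤ) (Q : ℕ) (s w : F) : Prop :=
  (∀ i, S.H i = 0 → (S.v i).Ge (q * S.C i) (w - s * d₁ ^ Q)) ∧
  (∀ i, S.G i = 0 → (S.v i).Ge (q * S.C i - a * S.H i) (w - s * d₃ ^ Q))

/-- Lifting of sections from the multiples of the curve. -/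
def Lift : Prop := ∃ b₀ : ℕ, ∀ q a : ℕ, a + b₀ ≤ q → ∀ w₁ w₃ : F,
  (∀ i, S.H i = 0 → (S.v i).Ge 0 w₁) → (∀ i, S.G i = 0 → (S.v i).Ge (- (a * S.H i)) w₃) →
  (∀ i, S.H i = 0 → S.G i = 0 → (S.v i).Ge (q * S.C i) (w₁ - w₃)) →
  ∃ w ∈ S.L a 0, (∀ i, S.H i = 0 → (S.v i).Ge (q * S.C i) (w - w₁)) ∧
    (∀ i, S.G i = 0 → (S.v i).Ge (q * S.C i - a * S.H i) (w - w₃))

/-- A trivialisation of `m (b₁ H - D)` along the curve. -/
structure Triv (m : ℕ) where
  e₁ : F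
  e₃ : F
  d₁ : F
  d₃ : F
  e₁_ge : ∀ i, S.H i = 0 → (S.v i).Ge (m * S.D i) e₁
  d₁_ge : ∀ i, S.H i = 0 → (S.v i).Ge (- (m * S.D i)) d₁
  ed₁ : ∀ i, S.H i = 0 → (S.v i).Ge (S.C i) (e₁ * d₁ - 1)
  e₃_ge : ∀ i, S.G i = 0 → (S.v i).Ge (m * S.D i - m * S.b₁ * S.H i) e₃
  d₃_ge : ∀ i, S.G i = 0 → (S.v i).Ge (- (m * S.D i) + m * S.b₁ * S.H i) d₃
  ed₃ : ∀ i, S.G i = 0 → (S.v i).Ge (S.C i) (e₃ * d₃ - 1)
  glue : ∀ i, S.H i = 0 → S.G i = 0 → (S.v i).Ge (S.C i - m * S.D i) (d₁ - d₃)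

/-- No sections of negative degree. -/
def Deg : Prop := ∀ (n : ℕ) (a : ℤ), a < 0 → ∀ f ∈ S.L a n, f = 0

/-- The volume hypothesis. -/
def Vol (δ : ℝ) : Prop := ∀ (r : ℕ) (ε : ℝ), 0 < ε → ∃ a₀ : ℕ, ∀ a : ℕ, a₀ ≤ a → ∀ n : ℕ,
  n ≤ r * a → (δ - ε) * (a : ℝ) ^ 2 ≤ (Module.finrank k (S.L a n) : ℝ)

/-- Sections vanishing to high order along a fixed curve are few. -/
def Up (δ : ℝ) : Prop := ∀ (i : I) (κ : ℝ), 0 < κ → ∃ ε : ℝ, 0 < ε ∧ ∃ a₀ : ℕ, ∀ a : ℕ, a₀ ≤ a →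
  ∀ t : ℕ, κ * a ≤ t → (Module.finrank k (S.U i a t) : ℝ) ≤ (δ - ε) * (a : ℝ) ^ 2

variable {S}

theorem partner_cross {m q : ℕ} (T : S.Triv m) (hD : S.Deg)
    {a₁ a₂ : ℕ} (h12 : a₁ + a₂ < q) {s₁ s₂ w₁ w₂ : F}
    (hs₁ : s₁ ∈ S.L a₁ (m * q : ℕ)) (hs₂ : s₂ ∈ S.L a₂ (m * q : ℕ))
    (hw₁ : S.Partner T.d₁ T.d₃ q a₁ q s₁ w₁) (hw₂ : S.Partner T.d₁ T.d₃ q a₂ q s₂ w₂) :
    s₁ * w₂ = s₂ * w₁ := by
  have key : (s₁ * w₂ - s₂ * w₁) * (S.x ^ q)⁻¹ ∈ S.L (a₁ + a₂ - q : ℤ) (m * q : ℕ) := by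
    rw [S.mem_L]
    intro i
    have hx : (S.v i).Ge (- (q * (S.C i - S.H i))) ((S.x ^ q)⁻¹) := by
      right
      rw [Ord.o_inv _ (pow_ne_zero _ S.x_ne), Ord.o_pow _ S.x_ne]
      apply le_of_eq
      unfold C
      ring
    rcases S.nocom i with h | h
    · have e1 : (S.v i).Ge (((m * q : ℕ) : ℤ) * S.D i + q * S.C i) (s₁ * (w₂ - s₂ * T.d₁ ^ q)) := by
        refine (((S.mem_L.mp hs₁) i).mul (hw₂.1 i h)).mono (le_of_eq ?_)
        rw [h]; push_cast; ring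
      have e2 : (S.v i).Ge (((m * q : ℕ) : ℤ) * S.D i + q * S.C i) (s₂ * (w₁ - s₁ * T.d₁ ^ q)) := by
        refine (((S.mem_L.mp hs₂) i).mul (hw₁.1 i h)).mono (le_of_eq ?_)
        rw [h]; push_cast; ring
      have e3 : s₁ * w₂ - s₂ * w₁ = s₁ * (w₂ - s₂ * T.d₁ ^ q) - s₂ * (w₁ - s₁ * T.d₁ ^ q) := by ring
      rw [e3]
      refine ((e1.sub e2).mul hx).mono (le_of_eq ?_)
      rw [h]; push_cast; ring
    · have h' : S.G i = 0 := h
      have e1 : (S.v i).Ge (((m * q : ℕ) : ℤ) * S.D i + q * S.C i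
          - (((m * q : ℕ) : ℤ) * S.b₁ + a₁ + a₂) * S.H i) (s₁ * (w₂ - s₂ * T.d₃ ^ q)) := by
        refine (((S.mem_L.mp hs₁) i).mul (hw₂.2 i h')).mono (le_of_eq ?_)
        push_cast; ring
      have e2 : (S.v i).Ge (((m * q : ℕ) : ℤ) * S.D i + q * S.C i
          - (((m * q : ℕ) : ℤ) * S.b₁ + a₁ + a₂) * S.H i) (s₂ * (w₁ - s₁ * T.d₃ ^ q)) := by
        refine (((S.mem_L.mp hs₂) i).mul (hw₁.2 i h')).mono (le_of_eq ?_)
        push_cast; ring
      have e3 : s₁ * w₂ - s₂ * w₁ = s₁ * (w₂ - s₂ * T.d₃ ^ q) - s₂ * (w₁ - s₁ * T.d₃ ^ q) := by ring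
      rw [e3]
      refine ((e1.sub e2).mul hx).mono (le_of_eq ?_)
      push_cast; ring
  have h0 := hD (m * q) (a₁ + a₂ - q : ℤ) (by omega) _ (by exact_mod_cast key)
  rcases mul_eq_zero.mp h0 with h | h
  · exact sub_eq_zero.mp h
  · exact absurd h (inv_ne_zero (pow_ne_zero _ S.x_ne))

theorem partner_ne {m q : ℕ} (T : S.Triv m) (hD : S.Deg) (p e : ℕ) [Fact p.Prime] [CharP F p]
    (hq : q = p ^ e) {a : ℕ} (ha : a < q) {s : F} (hs : s ∈ S.L a (m * q : ℕ))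
    (hw : S.Partner T.d₁ T.d₃ q a q s 0) : s = 0 := by
  have frob : ∀ z w : F, (z - w) ^ q = z ^ q - w ^ q := by
    intro z w
    rw [hq]
    exact sub_pow_char_pow z w e
  have key : s * (S.x ^ q)⁻¹ ∈ S.L (a - q : ℤ) (m * q : ℕ) := by
    rw [S.mem_L]
    intro i
    have hx : (S.v i).Ge (- (q * (S.C i - S.H i))) ((S.x ^ q)⁻¹) := by
      right
      rw [Ord.o_inv _ (pow_ne_zero _ S.x_ne), Ord.o_pow _ S.x_ne]
      apply le_of_eq
      unfold C
      ring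
    rcases S.nocom i with h | h
    · have h1 := hw.1 i h
      rw [zero_sub] at h1
      have h2 := h1.neg
      rw [neg_neg] at h2
      have h3 := h2.mul ((T.e₁_ge i h).pow q)
      have h4 := (T.ed₁ i h).pow q
      rw [frob, one_pow] at h4
      have h5 := ((S.mem_L.mp hs) i).mul h4
      have h6 : s = s * T.d₁ ^ q * T.e₁ ^ q - s * ((T.e₁ * T.d₁) ^ q - 1) := by
        rw [mul_pow]; ring
      have h7 : (S.v i).Ge (((m * q : ℕ) : ℤ) * S.D i + q * S.C i) s := by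
        rw [h6]
        refine (h3.mono ?_).sub (h5.mono ?_)
        · push_cast; apply le_of_eq; ring
        · rw [h]; push_cast; apply le_of_eq; ring
      refine (h7.mul hx).mono (le_of_eq ?_)
      rw [h]; push_cast; ring
    · have h' : S.G i = 0 := h
      have h1 := hw.2 i h'
      rw [zero_sub] at h1
      have h2 := h1.neg
      rw [neg_neg] at h2
      have h3 := h2.mul ((T.e₃_ge i h').pow q)
      have h4 := (T.ed₃ i h').pow q
      rw [frob, one_pow] at h4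
      have h5 := ((S.mem_L.mp hs) i).mul h4
      have h6 : s = s * T.d₃ ^ q * T.e₃ ^ q - s * ((T.e₃ * T.d₃) ^ q - 1) := by
        rw [mul_pow]; ring
      have h7 : (S.v i).Ge (((m * q : ℕ) : ℤ) * S.D i + q * S.C i
          - (((m * q : ℕ) : ℤ) * S.b₁ + a) * S.H i) s := by
        rw [h6]
        refine (h3.mono ?_).sub (h5.mono ?_)
        · push_cast; apply le_of_eq; ring
        · push_cast; apply le_of_eq; ring
      refine (h7.mul hx).mono (le_of_eq ?_)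
      push_cast; ring
  have h0 := hD (m * q) (a - q : ℤ) (by omega) _ (by exact_mod_cast key)
  rcases mul_eq_zero.mp h0 with h | h
  · exact h
  · exact absurd h (inv_ne_zero (pow_ne_zero _ S.x_ne))

theorem partner_exists {m q : ℕ} (T : S.Triv m) (p e : ℕ) [Fact p.Prime] [CharP F p]
    (hq : q = p ^ e) {a : ℕ}
    (hL : ∀ w₁ w₃ : F,
      (∀ i, S.H i = 0 → (S.v i).Ge 0 w₁) → (∀ i, S.G i = 0 → (S.v i).Ge (- (a * S.H i)) w₃) →
      (∀ i, S.H i = 0 → S.G i = 0 → (S.v i).Ge (q * S.C i) (w₁ - w₃)) →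
      ∃ w ∈ S.L a 0, (∀ i, S.H i = 0 → (S.v i).Ge (q * S.C i) (w - w₁)) ∧
        (∀ i, S.G i = 0 → (S.v i).Ge (q * S.C i - a * S.H i) (w - w₃)))
    {s : F} (hs : s ∈ S.L a (m * q : ℕ)) :
    ∃ w ∈ S.L a 0, S.Partner T.d₁ T.d₃ q a q s w := by
  have frob : ∀ z w : F, (z - w) ^ q = z ^ q - w ^ q := by
    intro z w
    rw [hq]
    exact sub_pow_char_pow z w e
  have c1 : ∀ i, S.H i = 0 → (S.v i).Ge 0 (s * T.d₁ ^ q) := by
    intro i h
    refine (((S.mem_L.mp hs) i).mul ((T.d₁_ge i h).pow q)).mono (le_of_eq ?_)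
    rw [h]; push_cast; ring
  have c3 : ∀ i, S.G i = 0 → (S.v i).Ge (- (a * S.H i)) (s * T.d₃ ^ q) := by
    intro i h
    refine (((S.mem_L.mp hs) i).mul ((T.d₃_ge i h).pow q)).mono (le_of_eq ?_)
    push_cast; ring
  have c13 : ∀ i, S.H i = 0 → S.G i = 0 →
      (S.v i).Ge (q * S.C i) (s * T.d₁ ^ q - s * T.d₃ ^ q) := by
    intro i h h'
    have h1 := (T.glue i h h').pow q
    rw [frob] at h1
    have h2 := ((S.mem_L.mp hs) i).mul h1
    have h3 : s * T.d₁ ^ q - s * T.d₃ ^ q = s * (T.d₁ ^ q - T.d₃ ^ q) := by ring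
    rw [h3]
    refine h2.mono (le_of_eq ?_)
    rw [h]; push_cast; ring
  exact hL _ _ c1 c3 c13

theorem partner_pow {m q a : ℕ} (T : S.Triv m) (p e : ℕ) [Fact p.Prime] [CharP F p]
    {s w : F} (hw : S.Partner T.d₁ T.d₃ q a q s w) :
    S.Partner T.d₁ T.d₃ (q * p ^ e : ℕ) (a * p ^ e : ℕ) (q * p ^ e) (s ^ p ^ e) (w ^ p ^ e) := by
  constructor
  · intro i h
    have h1 := (hw.1 i h).pow (p ^ e)
    rw [sub_pow_char_pow, mul_pow, ← pow_mul] at h1
    refine h1.mono (le_of_eq ?_)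
    push_cast; ring
  · intro i h
    have h1 := (hw.2 i h).pow (p ^ e)
    rw [sub_pow_char_pow, mul_pow, ← pow_mul] at h1
    refine h1.mono (le_of_eq ?_)
    push_cast; ring

theorem mem_L_pow {n : ℤ} {a : ℕ} {s : F} (hs : s ∈ S.L a n) (t : ℕ) :
    s ^ t ∈ S.L (a * t : ℕ) (n * t) := by
  rw [S.mem_L]
  intro i
  refine ((S.mem_L.mp hs i).pow t).mono (le_of_eq ?_)
  push_cast; ring

/-- **Lemma TOR**, abstract form. -/
theorem core (p : ℕ) [Fact p.Prime] [CharP F p] (S : Data k F I) {m : ℕ} (hm : 0 < m)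
    (T : S.Triv m) (hD : S.Deg) (hLift : S.Lift) (hfin : ∀ a : ℕ, Module.Finite k (S.L a 0))
    {δ : ℝ} (hδ : 0 < δ) (hV : S.Vol δ) (hU : S.Up δ) :
    ∃ n : ℕ, 0 < n ∧ ∃ f ∈ S.L 0 n, f ≠ 0 := by
  classical
  obtain ⟨b₀, hb₀⟩ := hLift
  have hp : 2 ≤ p := (Fact.out : p.Prime).two_le
  obtain ⟨a₀, ha₀⟩ := hV (8 * m) (δ / 2) (by linarith)
  -- the level e
  set e : ℕ := 4 * a₀ + 8 * b₀ + 16 with he
  set q : ℕ := p ^ e with hqdef
  have hqe : e < q := Nat.lt_pow_self (by omega)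
  set a : ℕ := q / 4 with hadef
  have ha4 : 4 * a ≤ q := Nat.mul_div_le q 4
  have ha4' : q < 4 * a + 4 := by omega
  have ha1 : a₀ ≤ a := by omega
  have hapos : 0 < a := by omega
  have hab : a + b₀ ≤ q := by omega
  have hnr : m * q ≤ 8 * m * a := by nlinarith
  have hfr := ha₀ a ha1 (m * q) hnr
  have hpos : 0 < Module.finrank k (S.L a (m * q : ℕ)) := by
    have : (0 : ℝ) < (δ - δ / 2) * (a : ℝ) ^ 2 := by
      have : (0 : ℝ) < a := by exact_mod_cast hapos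
      have h2 : 0 < δ - δ / 2 := by linarith
      positivity
    exact_mod_cast lt_of_lt_of_le this hfr
  obtain ⟨s', hs'⟩ : ∃ s' : S.L a (m * q : ℕ), s' ≠ 0 := by
    by_contra hcon
    push Not at hcon
    have : Subsingleton (S.L a (m * q : ℕ)) := ⟨fun u w => by rw [hcon u, hcon w]⟩
    rw [Module.finrank_zero_of_subsingleton] at hpos
    exact lt_irrefl 0 hpos
  obtain ⟨s, hsmem⟩ := s'
  have hs0 : s ≠ 0 := fun h => hs' (Subtype.ext h)
  obtain ⟨w, hwmem, hw⟩ := partner_exists T p e hqdef (hb₀ q a hab) hsmem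
  have hw0 : w ≠ 0 := by
    rintro rfl
    exact hs0 (partner_ne T hD p e hqdef (by omega) hsmem hw)
  set φ : F := s / w with hφ
  have hφ0 : φ ≠ 0 := div_ne_zero hs0 hw0
  by_cases hfinal : φ ∈ S.L 0 (m * q : ℕ)
  · exact ⟨m * q, Nat.mul_pos hm (by omega), φ, hfinal, hφ0⟩
  exfalso
  rw [S.mem_L] at hfinal
  push Not at hfinal
  obtain ⟨i, hi⟩ := hfinal
  unfold Ord.Ge at hi
  push Not at hi
  have hi2 : (S.v i).o φ + 1 ≤ ((m * q : ℕ) : ℤ) * S.D i - ((m * q : ℕ) : ℤ) * S.b₁ * S.H i := by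
    have := hi.2
    rw [add_zero] at this
    omega
  have hqR : (0 : ℝ) < q := by exact_mod_cast (show 0 < q by omega)
  obtain ⟨ε, hε, a₁, ha₁⟩ := hU i (4 / q) (by positivity)
  obtain ⟨a₂, ha₂⟩ := hV (8 * m) (ε / 2) (by linarith)
  set j : ℕ := a₁ + a₂ + b₀ + 16 with hj
  set P : ℕ := p ^ j with hP
  have hjP : j < P := Nat.lt_pow_self (by omega)
  set c : ℕ := q * P / 4 with hc
  have hqP : P ≤ q * P := Nat.le_mul_of_pos_left P (by omega)
  have hqP2 : 16 * P ≤ q * P := Nat.mul_le_mul_right P (by omega)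
  have hc4 : 4 * c ≤ q * P := Nat.mul_div_le (q * P) 4
  have hc4' : q * P < 4 * c + 4 := by omega
  have hcpos : 0 < c := by omega
  have haP : 4 * (a * P) ≤ q * P := by
    rw [← mul_assoc]
    exact Nat.mul_le_mul_right P ha4
  have hQe : q * P = p ^ (e + j) := by rw [hqdef, hP, ← pow_add]
  have hnr2 : m * (q * P) ≤ 8 * m * c := by
    have : q * P ≤ 8 * c := by omega
    calc m * (q * P) ≤ m * (8 * c) := Nat.mul_le_mul_left m this
      _ = 8 * m * c := by ring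
  have h1 := ha₂ c (by omega) (m * (q * P)) hnr2
  have h2 := ha₁ c (by omega) P (by
    have : (4 * c : ℝ) ≤ q * P := by exact_mod_cast hc4
    rw [div_mul_eq_mul_div, div_le_iff₀ hqR]
    nlinarith)
  -- the map s₁ ↦ s₁ / φ ^ P
  have hmap : ∀ s₁ ∈ S.L c (m * (q * P) : ℕ), (φ ^ P)⁻¹ * s₁ ∈ S.U i c P := by
    intro s₁ hs₁
    obtain ⟨w₁, hw₁mem, hw₁⟩ := partner_exists T p (e + j) hQe
      (hb₀ (q * P) c (by omega)) hs₁
    have hpw := partner_pow T p j hw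
    have hsp : s ^ P ∈ S.L (a * P : ℕ) (m * (q * P) : ℕ) := by
      have := mem_L_pow hsmem P
      have h3 : ((m * q : ℕ) : ℤ) * (P : ℤ) = ((m * (q * P) : ℕ) : ℤ) := by push_cast; ring
      rw [h3] at this
      exact this
    have hcr := partner_cross T hD (show c + a * P < q * P by omega) hs₁ hsp
      (by exact_mod_cast hw₁) (by exact_mod_cast hpw)
    have hw₁eq : (φ ^ P)⁻¹ * s₁ = w₁ := by
      have hsP : s ^ P ≠ 0 := pow_ne_zero _ hs0
      rw [hφ, div_pow, inv_div]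
      field_simp
      linear_combination hcr
    rw [S.mem_U]
    refine ⟨by rw [hw₁eq]; exact hw₁mem, ?_⟩
    by_cases h0 : s₁ = 0
    · left; rw [h0, mul_zero]
    right
    rw [(S.v i).mul _ _ (inv_ne_zero (pow_ne_zero _ hφ0)) h0, Ord.o_inv _ (pow_ne_zero _ hφ0),
      Ord.o_pow _ hφ0]
    have h4 := (S.mem_L.mp hs₁ i).resolve_left h0
    have h5 : (P : ℤ) * ((S.v i).o φ + 1) ≤
        (P : ℤ) * (((m * q : ℕ) : ℤ) * S.D i - ((m * q : ℕ) : ℤ) * S.b₁ * S.H i) :=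
      mul_le_mul_of_nonneg_left hi2 (by positivity)
    push_cast at h4 h5 ⊢
    nlinarith
  let Φ : S.L c (m * (q * P) : ℕ) →ₗ[k] S.U i c P :=
    { toFun := fun u => ⟨(φ ^ P)⁻¹ * u.1, hmap u.1 u.2⟩
      map_add' := fun u w => Subtype.ext (by simp [mul_add])
      map_smul' := fun r u => Subtype.ext (by simp) }
  have hΦ : Function.Injective Φ := by
    intro u w h
    have h3 := congrArg Subtype.val h
    exact Subtype.ext (mul_left_cancel₀ (inv_ne_zero (pow_ne_zero _ hφ0)) h3)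
  have := hfin c
  have : Module.Finite k (S.U i c P) := by
    have hle : S.U i c P ≤ S.L c 0 := inf_le_left
    exact Module.Finite.of_injective (Submodule.inclusion hle) (Submodule.inclusion_injective hle)
  have h3 : Module.finrank k (S.L c (m * (q * P) : ℕ)) ≤ Module.finrank k (S.U i c P) :=
    LinearMap.finrank_le_finrank_of_injective hΦ
  have h4 : (δ - ε / 2) * (c : ℝ) ^ 2 ≤ (δ - ε) * (c : ℝ) ^ 2 :=
    le_trans h1 (le_trans (by exact_mod_cast h3) h2)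
  have hcR : (0 : ℝ) < (c : ℝ) ^ 2 := by
    have : (0 : ℝ) < c := by exact_mod_cast hcpos
    positivity
  nlinarith

end Data

end Pool.Agent.TOR
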