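import Mathlib

/-!
# Lemma TOR, definitions

Integer valued orders on a field `F` (the function field of a surface), divisors as integer valued
functions on a family of orders, and the spaces of sections.
-/

set_option autoImplicit false

namespace Pool.Agent.TOR

/-- An integer valued discrete valuation (order function); the value at `0` is meaningless. -/
structure Ord (F : Type) [Field F] where
  /-- the order -/
  o : F → ℤ
  mul : ∀ x y, x ≠ 0 → y ≠ 0 → o (x * y) = o x + o y
  add : ∀ x y, x ≠ 0 → y ≠ 0 → x + y ≠ 0 → min (o x) (o y) ≤ o (x + y)

variable {F : Type} [Field F]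

/-- The order of `x` is at least `d`. -/
def Ord.Ge (v : Ord F) (d : ℤ) (x : F) : Prop := x = 0 ∨ d ≤ v.o x

/-- The space of functions with orders at least `D`. -/
def sec (k : Type) [Field k] [Algebra k F] {I : Type} (v : I → Ord F) (D : I → ℤ)
    (hk : ∀ i (c : k), (v i).Ge 0 (algebraMap k F c)) : Submodule k F where
  carrier := {f | ∀ i, (v i).Ge (D i) f}
  zero_mem' := fun _ => Or.inl rfl
  add_mem' := by
    intro x y hx hy i
    rcases hx i with h | h
    · rcases hy i with h' | h'
      · left; rw [h, h', add_zero]
      · rw [h, zero_add]; exact Or.inr h'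
    · rcases hy i with h' | h'
      · rw [h', add_zero]; exact Or.inr h
      · by_cases h0 : x = 0
        · rw [h0, zero_add]; exact Or.inr h'
        by_cases h1 : y = 0
        · rw [h1, add_zero]; exact Or.inr h
        by_cases h2 : x + y = 0
        · exact Or.inl h2
        · exact Or.inr (le_trans (le_min h h') ((v i).add x y h0 h1 h2))
  smul_mem' := by
    intro c x hx i
    rw [Algebra.smul_def]
    by_cases h0 : x = 0
    · left; rw [h0, mul_zero]
    by_cases h1 : algebraMap k F c = 0
    · left; rw [h1, zero_mul]
    · right
      rw [(v i).mul _ _ h1 h0]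
      have := (hk i c).resolve_left h1
      have := (hx i).resolve_left h0
      linarith

end Pool.Agent.TOR
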